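import Pool.Agent.H93.CP.Targets

/-!
# Row NES of the board cpt_modules: nested open sets
-/

set_option autoImplicit false

namespace Pool.Agent.H12.CPT

open Set Filter Topology Pool.Agent.H93.CP

section

variable {G X : Type} [Group G] [TopologicalSpace G] [MulAction G X] [MeasurableSpace X]
  {H : Good G X} (C : Sch H)

lemma nes_pr (w : List C.gr.E) : C.gr.pr w = (C.prD w : G) := by
  induction w with
  | nil => simp [Gr.pr, Sch.prD]
  | cons e w ih =>
    have h1 : C.gr.pr (e :: w) = C.gr.val e * C.gr.pr w := by simp [Gr.pr]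
    have h2 : C.prD (e :: w) = e.1.2.1 * C.prD w := by simp [Sch.prD]
    rw [h1, h2, ih]
    rfl

lemma nes_app (u w : List C.gr.E) : C.prD (u ++ w) = C.prD u * C.prD w := by
  simp [Sch.prD]

lemma nes_one (e : C.gr.E) : C.prD [e] = e.1.2.1 := by
  simp [Sch.prD]

lemma nes_fin (w : List C.gr.E) (e : C.gr.E) :
    C.gr.fin C.gr.root (w ++ [e]) = e.1.2.2 := by
  simp only [Gr.fin, List.foldl_append, List.foldl_cons, List.foldl_nil]
  rfl

omit [Group G] [TopologicalSpace G] in
lemma leg_app (S : Gr G) (a : S.O) (u w : List S.E) :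
    S.Leg a (u ++ w) ↔ S.Leg a u ∧ S.Leg (S.fin a u) w := by
  induction u generalizing a with
  | nil => simp [Gr.Leg, Gr.fin]
  | cons e u ih =>
    have h1 : S.fin a (e :: u) = S.fin (S.tgt e) u := rfl
    have h2 : S.Leg a (e :: u) ↔ S.src e = a ∧ S.Leg (S.tgt e) u := Iff.rfl
    have h3 : S.Leg a (e :: u ++ w) ↔ S.src e = a ∧ S.Leg (S.tgt e) (u ++ w) := Iff.rfl
    rw [h3, h2, h1, ih, and_assoc]

lemma leg_snoc {w : List C.gr.E} {e : C.gr.E} (h : C.gr.Leg C.gr.root (w ++ [e])) :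
    C.gr.Leg C.gr.root w ∧ e.1.1 = C.gr.fin C.gr.root w := by
  rw [leg_app] at h
  exact ⟨h.1, h.2.1⟩

lemma img_eq (d : H.D) (A : Set H.Y) :
    (fun y : H.Y => d • y) '' A = (fun y : H.Y => d⁻¹ • y) ⁻¹' A := by
  ext y
  constructor
  · rintro ⟨z, hz, rfl⟩
    simpa using hz
  · intro hy
    exact ⟨d⁻¹ • y, hy, by simp⟩

lemma img_open (d : H.D) {A : Set H.Y} (hA : IsOpen A) :
    IsOpen ((fun y : H.Y => d • y) '' A) := by
  rw [img_eq]
  exact hA.preimage (H.cont d⁻¹)

lemma img_clos (d : H.D) (A : Set H.Y) :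
    closure ((fun y : H.Y => d • y) '' A) ⊆ (fun y : H.Y => d • y) '' closure A := by
  apply closure_minimal
  · exact image_mono subset_closure
  · rw [img_eq]
    exact isClosed_closure.preimage (H.cont d⁻¹)

lemma W_snoc (w : List C.gr.E) (e : C.gr.E) :
    C.W (w ++ [e]) = (fun y : H.Y => C.prD w • y) ''
      ((fun y : H.Y => e.1.2.1 • y) '' C.B e.1.2.2.1) := by
  rw [Sch.W, nes_fin, nes_app, nes_one, image_image]
  congr 1
  ext y
  exact mul_smul _ _ _

lemma nes_F (w : List C.gr.E) : C.gr.Leg C.gr.root w →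
    C.prD w ∈ C.F (C.gr.fin C.gr.root w).2 := by
  induction w using List.reverseRecOn with
  | nil =>
    intro _
    have : C.prD ([] : List C.gr.E) = 1 := rfl
    rw [this]
    exact C.one _
  | append_singleton w e ih =>
    intro h
    obtain ⟨h1, h2⟩ := leg_snoc C h
    have h3 := ih h1
    have h4 := e.2.2.2.2 (C.prD w) (by rw [h2]; exact h3) 1 (C.one _)
    rw [nes_fin, nes_app, nes_one]
    rw [mul_one] at h4
    exact h4

lemma nes_clos {w : List C.gr.E} {e : C.gr.E} (h : C.gr.Leg C.gr.root (w ++ [e])) :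
    closure (C.W (w ++ [e])) ⊆ C.W w := by
  obtain ⟨-, h2⟩ := leg_snoc C h
  rw [W_snoc]
  refine (img_clos _ _).trans ?_
  have h3 := e.2.2.1
  rw [h2] at h3
  exact image_mono h3

lemma nes_sub (w : List C.gr.E) : ∀ u, C.gr.Leg C.gr.root w → u <+: w → C.W w ⊆ C.W u := by
  induction w using List.reverseRecOn with
  | nil =>
    intro u _ hu
    rw [List.prefix_nil] at hu
    rw [hu]
  | append_singleton w e ih =>
    intro u h hu
    rcases List.prefix_concat_iff.1 (by simpa using hu) with h1 | h1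
    · rw [h1]
    · have h2 := leg_snoc C h
      exact (subset_closure.trans (nes_clos C h)).trans (ih u h2.1 h1)

lemma nes_dist {w : List C.gr.E} {e : C.gr.E} (h : C.gr.Leg C.gr.root (w ++ [e])) :
    ∀ u ∈ C.W (w ++ [e]), ∀ v ∈ C.W (w ++ [e]),
        dist u v ≤ (1 / 2 : ℝ) ^ (C.gr.fin C.gr.root w).2 := by
  obtain ⟨h1, h2⟩ := leg_snoc C h
  rintro u hu v hv
  rw [W_snoc, image_image] at hu hv
  obtain ⟨u', hu', rfl⟩ := hu
  obtain ⟨v', hv', rfl⟩ := hv
  have h3 := nes_F C w h1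
  have h4 := e.2.2.2.1 (C.prD w) (by rw [h2]; exact h3) u' hu' v' hv'
  rw [h2, mul_smul, mul_smul] at h4
  exact h4

end

theorem pf_NES : T_NES := by
  intro G X _ _ _ _ H C
  refine ⟨nes_pr C, nes_app C, fun w => img_open _ (C.opn _), fun w => (C.ne _).image _,
    nes_F C, fun u w h hu => nes_sub C w u h hu, fun w e h => ⟨nes_clos C h, nes_dist C h⟩⟩

end Pool.Agent.H12.CPT
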